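import Pool.Agent.Q65.Gamma

/-!
# MP_2c59d0_an: boundedness for `x_{n+1} = γ + x_{n-2m} / x_{n-1}`

All positive solutions are bounded, for all `γ > 0` and all `m ≥ 1`.
-/

set_option autoImplicit false

namespace Pool.Agent.Results.MP_2c59d0_an.Bounded

/-- `x` is the solution of `x_{n+1} = γ + x_{n-2m} / x_{n-1}` with positive initial values; the index
is shifted by `2m`, so `x 0, ..., x (2m)` stand for `x_{-2m}, ..., x_0` -/
def IsPositiveSolution (γ : ℝ) (m : ℕ) (x : ℕ → ℝ) : Prop :=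
  (∀ n, n ≤ 2 * m → 0 < x n) ∧ ∀ n, x (n + 2 * m + 1) = γ + x n / x (n + 2 * m - 1)

/-- **For every `γ > 0` and every integer `m ≥ 1` all positive solutions are bounded.** -/
theorem result : ∀ (γ : ℝ) (m : ℕ), 0 < γ → 1 ≤ m → ∀ x : ℕ → ℝ, IsPositiveSolution γ m x →
    BddAbove (Set.range x) := by
  intro γ m hγ hm x ⟨h0, hrec⟩
  have hpos : ∀ n, 0 < x n := by
    intro n
    induction n using Nat.strong_induction_on with
    | _ n ih =>
      rcases le_or_gt n (2 * m) with hn | hn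
      · exact h0 n hn
      · obtain ⟨n', rfl⟩ : ∃ n', n = n' + 2 * m + 1 := ⟨n - (2 * m + 1), by omega⟩
        rw [hrec]
        have h1 := ih n' (by omega)
        have h2 := ih (n' + 2 * m - 1) (by omega)
        positivity
  have hz : ∀ n, γ < x (n + (2 * m + 1)) := by
    intro n
    have h1 := hrec n
    have h2 := div_pos (hpos n) (hpos (n + 2 * m - 1))
    rw [← add_assoc, h1]
    linarith
  have hzrec : ∀ n, x (n + (2 * m + 1) + (2 * m + 1)) =
      γ + x (n + (2 * m + 1)) / x (n + (2 * m + 1) - 2 + (2 * m + 1)) := by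
    intro n
    have h1 := hrec (n + (2 * m + 1))
    rw [show n + (2 * m + 1) + 2 * m + 1 = n + (2 * m + 1) + (2 * m + 1) by ring,
      show n + (2 * m + 1) + 2 * m - 1 = n + (2 * m + 1) - 2 + (2 * m + 1) by omega] at h1
    exact h1
  have hb : BddAbove (Set.range fun n => x (n + (2 * m + 1))) := by
    rcases lt_or_ge γ 1 with h | h
    · exact Q65.Gamma.bounded_lt (z := fun n => x (n + (2 * m + 1))) hγ h hm hz hzrec
    · exact Q65.Gamma.bounded_ge (z := fun n => x (n + (2 * m + 1))) h (by omega) hz hzrec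
  obtain ⟨M, hM⟩ := hb
  obtain ⟨C, hC⟩ := ((Set.finite_Iio (2 * m + 1)).image x).bddAbove
  refine ⟨max M C, ?_⟩
  rintro _ ⟨n, rfl⟩
  rcases lt_or_ge n (2 * m + 1) with hn | hn
  · exact (hC ⟨n, hn, rfl⟩).trans (le_max_right _ _)
  · have h1 : x (n - (2 * m + 1) + (2 * m + 1)) ≤ M := hM ⟨n - (2 * m + 1), rfl⟩
    rw [Nat.sub_add_cancel hn] at h1
    exact h1.trans (le_max_left _ _)

end Pool.Agent.Results.MP_2c59d0_an.Bounded
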